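import Pool.Agent.Helper76.TB.Iface
import Pool.Agent.Helper84.CR.MERT

/-!
# Packet TB-U-GZL (MP_74f661_nt): the exact order of the twin density
-/

set_option autoImplicit false

open Finset Filter Topology

namespace Pool.Agent.Helper47.TB

open Pool.Agent.Helper90.Twin (Ps Gz GG mem_Ps Gz_pos)
open Pool.Agent.Helper48.CR (V pr)

theorem tele (n : ℕ) : ∏ m ∈ Icc 5 (n + 4), (1 - 1 / ((m : ℝ) - 1) ^ 2) =
    3 / 4 * (((n : ℝ) + 4) / (n + 3)) := by
  induction n with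
  | zero => norm_num
  | succ n ih =>
    rw [show n + 1 + 4 = (n + 4) + 1 by ring, Finset.prod_Icc_succ_top (by omega), ih]
    have h0 : (0 : ℝ) ≤ n := Nat.cast_nonneg n
    push_cast
    have h1 : ((n : ℝ) + 3) ≠ 0 := by positivity
    have h2 : ((n : ℝ) + 4) ≠ 0 := by positivity
    have h3 : ((n : ℝ) + 4 + 1 - 1) = n + 4 := by ring
    have h4 : ((n : ℝ) + 1 + 3) = n + 4 := by ring
    rw [h3, h4]
    field_simp
    ring

theorem E_ge {z : ℕ} (hz : 4 ≤ z) : 3 / 4 ≤ ∏ p ∈ Ps z, (1 - 1 / ((p : ℝ) - 1) ^ 2) := by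
  obtain ⟨n, rfl⟩ : ∃ n, z = n + 4 := ⟨z - 4, by omega⟩
  have h1 : ∏ m ∈ Icc 5 (n + 4), (1 - 1 / ((m : ℝ) - 1) ^ 2) ≤
      ∏ p ∈ Ps (n + 4), (1 - 1 / ((p : ℝ) - 1) ^ 2) := by
    unfold Ps
    rw [Finset.prod_filter]
    refine Finset.prod_le_prod (fun m hm => ?_) fun m hm => ?_
    · rw [mem_Icc] at hm
      have h5 : (5 : ℝ) ≤ m := by exact_mod_cast hm.1
      have : 1 / ((m : ℝ) - 1) ^ 2 ≤ 1 := by
        rw [div_le_one (by nlinarith)]
        nlinarith
      linarith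
    · split_ifs
      · exact le_refl _
      · have : 0 ≤ 1 / ((m : ℝ) - 1) ^ 2 := by positivity
        linarith
  rw [tele] at h1
  refine le_trans ?_ h1
  have h0 : (0 : ℝ) ≤ n := Nat.cast_nonneg n
  have h2 : 1 ≤ ((n : ℝ) + 4) / (n + 3) := by
    rw [le_div_iff₀ (by positivity)]
    linarith
  linarith

theorem E_le (z : ℕ) : ∏ p ∈ Ps z, (1 - 1 / ((p : ℝ) - 1) ^ 2) ≤ 1 := by
  refine Finset.prod_le_one (fun p hp => ?_) fun p hp => ?_
  · have h5 : (5 : ℝ) ≤ p := by exact_mod_cast (mem_Ps.1 hp).1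
    have : 1 / ((p : ℝ) - 1) ^ 2 ≤ 1 := by
      rw [div_le_one (by nlinarith)]
      nlinarith
    linarith
  · have : 0 ≤ 1 / ((p : ℝ) - 1) ^ 2 := by positivity
    linarith

theorem V_Ps {z : ℕ} (hz : 3 ≤ z) : V z = 1 / 3 * ∏ p ∈ Ps z, (1 - 1 / (p : ℝ)) := by
  have h1 : pr 0 z = insert 2 (insert 3 (Ps z)) := by
    ext p
    unfold pr
    rw [mem_insert, mem_insert, mem_Ps, mem_filter, mem_Ioc]
    constructor
    · rintro ⟨⟨h2, h3⟩, h4⟩
      have h5 := h4.two_le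
      rcases Nat.lt_or_ge p 5 with h6 | h6
      · interval_cases p
        · exact Or.inl rfl
        · exact Or.inr (Or.inl rfl)
        · exact absurd h4 (by norm_num)
      · exact Or.inr (Or.inr ⟨h6, h3, h4⟩)
    · rintro (rfl | rfl | ⟨h2, h3, h4⟩)
      · exact ⟨⟨by norm_num, by omega⟩, by norm_num⟩
      · exact ⟨⟨by norm_num, by omega⟩, by norm_num⟩
      · exact ⟨⟨by omega, h3⟩, h4⟩
  unfold V
  rw [h1, Finset.prod_insert, Finset.prod_insert]
  · norm_num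
    ring
  · intro h
    have := (mem_Ps.1 h).1
    omega
  · intro h
    rw [mem_insert] at h
    rcases h with h | h
    · omega
    · have := (mem_Ps.1 h).1
      omega

theorem Gz_V {z : ℕ} (hz : 3 ≤ z) :
    Gz z = 9 * V z ^ 2 * ∏ p ∈ Ps z, (1 - 1 / ((p : ℝ) - 1) ^ 2) := by
  rw [V_Ps hz]
  have h1 : Gz z = (∏ p ∈ Ps z, (1 - 1 / (p : ℝ))) ^ 2 *
      ∏ p ∈ Ps z, (1 - 1 / ((p : ℝ) - 1) ^ 2) := by
    unfold Gz GG
    rw [← Finset.prod_pow, ← Finset.prod_mul_distrib]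
    refine Finset.prod_congr rfl fun p hp => ?_
    have h5 : (5 : ℝ) ≤ p := by exact_mod_cast (mem_Ps.1 hp).1
    have h6 : (p : ℝ) ≠ 0 := by linarith
    have h7 : (p : ℝ) - 1 ≠ 0 := by linarith
    field_simp
    ring
  rw [h1]
  ring

/-- **GZL** -/
theorem gzl : Pool.Agent.Helper76.TB.GZLG := by
  have hV := Pool.Agent.Helper84.CR.V_log
  have hv : 0 < Real.exp (-Real.eulerMascheroniConstant) := Real.exp_pos _
  refine ⟨9 * (Real.exp (-Real.eulerMascheroniConstant) / 2) ^ 2 * (3 / 4),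
    9 * (2 * Real.exp (-Real.eulerMascheroniConstant)) ^ 2, by positivity, ?_⟩
  have h1 := hV.eventually_const_le (u := Real.exp (-Real.eulerMascheroniConstant) / 2)
    (by linarith)
  have h2 := hV.eventually_le_const (u := 2 * Real.exp (-Real.eulerMascheroniConstant))
    (by linarith)
  filter_upwards [h1, h2, eventually_ge_atTop 4] with z hz1 hz2 hz3
  have h3 : Gz z * Real.log z ^ 2 = 9 * (V z * Real.log z) ^ 2 *
      ∏ p ∈ Ps z, (1 - 1 / ((p : ℝ) - 1) ^ 2) := by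
    rw [Gz_V (by omega)]
    ring
  have h4 := E_ge hz3
  have h5 := E_le z
  have h6 : (Real.exp (-Real.eulerMascheroniConstant) / 2) ^ 2 ≤ (V z * Real.log z) ^ 2 :=
    pow_le_pow_left₀ (by positivity) hz1 2
  have h7 : (V z * Real.log z) ^ 2 ≤ (2 * Real.exp (-Real.eulerMascheroniConstant)) ^ 2 :=
    pow_le_pow_left₀ (le_trans (by positivity) hz1) hz2 2
  rw [h3]
  constructor
  · refine mul_le_mul (mul_le_mul_of_nonneg_left h6 (by norm_num)) h4 (by norm_num) (by positivity)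
  · refine le_trans (mul_le_of_le_one_right (by positivity) h5) ?_
    exact mul_le_mul_of_nonneg_left h7 (by norm_num)

end Pool.Agent.Helper47.TB
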